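import Pool.Agent.Q320.OS.CaseA
import Pool.Agent.Q320.OS.CaseB

/-!
# Non-complemented subspaces of `C[0,1]` with prescribed oscillating spectrum

Every nonempty `F_σ` set `M ⊆ [0,1]` is the oscillating spectrum `Ω(X)` of a closed subspace `X` of
`C[0,1]` that is not complemented in `C[0,1]`.

Definitions (`Pool/Agent/Q320/OS/Abs.lean`): `osc f t d` is the oscillation of `f` on
`[0,1] ∩ [t - d, t + d]`; `Gam X t` is `Γ_X(t)`; `Spec X = {t ∈ [0,1] : Γ_X(t) > 0}` is `Ω(X)`;
`Complemented X` says that some bounded linear projection of `C[0,1]` has range `X`.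
-/

set_option autoImplicit false

namespace Pool.Agent.Results.MP_8e06fd_an.NonComplementedSpectra

open Set Pool.Agent.Q320.OS

/-- For every nonempty `F_σ` set `M ⊆ [0,1]` there is a closed subspace `X` of `C[0,1]`, not
complemented in `C[0,1]`, whose oscillating spectrum `Ω(X)` is `M`. -/
theorem result (M : Set ℝ) (hM : M ⊆ Icc 0 1) (hne : M.Nonempty)
    (hF : ∃ C : ℕ → Set ℝ, (∀ k, IsClosed (C k)) ∧ M = ⋃ k, C k) :
    ∃ X : Submodule ℝ C(Icc (0 : ℝ) 1, ℝ), IsClosed (X : Set C(Icc (0 : ℝ) 1, ℝ)) ∧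
      ¬ Complemented X ∧ Spec X = M := by
  obtain ⟨C, hC, hMC⟩ := hF
  obtain ⟨t₀, ht₀⟩ := hne
  by_cases hint : interior M = ∅
  · exact caseB C M hM hC hMC ht₀ hint
  · obtain ⟨x, hx⟩ := nonempty_iff_ne_empty.mpr hint
    obtain ⟨r, hr, hball⟩ := Metric.isOpen_iff.mp isOpen_interior x hx
    have hC' : ∀ k, IsClosed (C k ∪ {t₀}) := fun k => (hC k).union isClosed_singleton
    have hne' : ∀ k, (C k ∪ {t₀}).Nonempty := fun k => ⟨t₀, Or.inr rfl⟩
    have hMC' : M = ⋃ k, (C k ∪ {t₀}) := by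
      ext s
      simp only [mem_iUnion, mem_union, mem_singleton_iff]
      constructor
      · intro hs
        rw [hMC] at hs
        obtain ⟨k, hk⟩ := mem_iUnion.mp hs
        exact ⟨k, Or.inl hk⟩
      · rintro ⟨k, hk | rfl⟩
        · rw [hMC]
          exact mem_iUnion.mpr ⟨k, hk⟩
        · exact ht₀
    have hseq : ∀ k, ∃ u : ℕ → ℝ, (∀ l, u l ∈ C k ∪ {t₀}) ∧
        ∀ t ∈ C k ∪ {t₀}, ∀ d > 0, ∃ l, |u l - t| ≤ d := by
      intro k
      haveI : Nonempty (C k ∪ {t₀} : Set ℝ) := (hne' k).to_subtype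
      refine ⟨fun l => (TopologicalSpace.denseSeq (C k ∪ {t₀} : Set ℝ) l : ℝ),
        fun l => (TopologicalSpace.denseSeq (C k ∪ {t₀} : Set ℝ) l).2, fun t ht d hd => ?_⟩
      obtain ⟨l, hl⟩ := (TopologicalSpace.denseRange_denseSeq (C k ∪ {t₀} : Set ℝ)).exists_dist_lt
        ⟨t, ht⟩ hd
      refine ⟨l, ?_⟩
      rw [Subtype.dist_eq, Real.dist_eq, abs_sub_comm] at hl
      exact hl.le
    choose u hu1 hu2 using hseq
    refine caseA u M hM (fun k => C k ∪ {t₀}) hC' hMC' hu1 hu2 (t₀ := x) (v := min (r / 2) 1)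
      (lt_min (by positivity) one_pos) (min_le_right _ _) fun s hs0 hs1 => ?_
    apply interior_subset
    apply hball
    rw [Metric.mem_ball, Real.dist_eq, add_sub_cancel_left]
    have h1 : 0 < min (r / 2) 1 := lt_min (by positivity) one_pos
    rw [abs_of_nonneg (mul_nonneg h1.le hs0)]
    calc min (r / 2) 1 * s ≤ min (r / 2) 1 * 1 := mul_le_mul_of_nonneg_left hs1 h1.le
      _ ≤ r / 2 := by rw [mul_one]; exact min_le_left _ _
      _ < r := by linarith

end Pool.Agent.Results.MP_8e06fd_an.NonComplementedSpectra
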